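import Pool.Agent.H28.SQ.Any
import Pool.Agent.H78.FS.Win
import Pool.Agent.H83.RC.All

set_option autoImplicit false

open MeasureTheory ProbabilityTheory Filter Topology

namespace Pool.Agent.Results.MP_c59857_nt.FurstenbergSystems

open Pool.Agent.H89.MT (I1 X pt)

/-- `[Y, Z]` is a logarithmic window: `log (Z / Y) ≥ (log Z) ^ (24/25)`. For example `Y = 1`. -/
def IsWindow (Y Z : ℕ) : Prop :=
  1 ≤ Y ∧ Y ≤ Z ∧ Real.log Z ^ (24 / 25 : ℝ) ≤ Real.log ((Z : ℝ) / Y)

/-- `κ` is a weak limit of the logarithmic means of the points `S ^ n u` over windows `[Y k, Z k]`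
with `log (Z k / Y k) → ∞`. For `Y k = 1` these are the logarithmically quasi-generic measures of
`u` (`([-1,1]^ℤ, κ, S)` is a Furstenberg system of `u`). -/
def QuasiGeneric (u : ℕ → I1) (κ : Measure X) : Prop :=
  ∃ Y Z : ℕ → ℕ, (∀ k, IsWindow (Y k) (Z k)) ∧
    Tendsto (fun k => Real.log ((Z k : ℝ) / Y k)) atTop atTop ∧
    ∀ F : C(X, ℝ), Tendsto (fun k => (∑ n ∈ Finset.Icc (Y k) (Z k), F (pt u n) / n) /
      Real.log ((Z k : ℝ) / Y k)) atTop (𝓝 (∫ x, F x ∂κ))

/-- Lengths of intervals: `0 < L N ≤ N`, `L → ∞`, and `L N` and `N / L N` are non-decreasing. Examples: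
`N`, `N ^ θ` with `0 < θ < 1`, `1 + log N`. -/
def IsLength (L : ℕ → ℝ) : Prop :=
  (∀ N : ℕ, 1 ≤ N → 0 < L N ∧ L N ≤ N) ∧
  (∀ N M : ℕ, 1 ≤ N → N ≤ M → L N ≤ L M ∧ N / L N ≤ M / L M) ∧ Tendsto L atTop atTop

/-- The random measure `K` is a limit in law of the empirical measures
`(1/L) ∑_{N - L < n ≤ N} δ_{S^n u}`, `L = L N`, at the random scale `N` in `[Y k, Z k]` with the
weight `1/N`: all the moments `E ∏ ∫ F i dK` are the limits. For `L N = N` these are the ordinary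
empirical measures `(1/N) ∑_{n ≤ N} δ_{S^n u}`. -/
def RandomScale (L : ℕ → ℝ) (u : ℕ → I1) {Ω : Type} [MeasurableSpace Ω] (μ : Measure Ω)
    (K : Kernel Ω X) : Prop :=
  ∃ Y Z : ℕ → ℕ, (∀ k, IsWindow (Y k) (Z k)) ∧
    Tendsto (fun k => Real.log ((Z k : ℝ) / Y k)) atTop atTop ∧
    ∀ (r : ℕ) (F : Fin r → C(X, ℝ)), Tendsto (fun k => (∑ N ∈ Finset.Icc (Y k) (Z k),
      (∏ i, (∑ n ∈ (Finset.Icc 1 N).filter (fun n : ℕ => (N : ℝ) - L N < n),
        F i (pt u n)) / L N) / N) / Real.log ((Z k : ℝ) / Y k))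
      atTop (𝓝 (∫ ω, ∏ i, ∫ x, F i x ∂K ω ∂μ))

/-- The shift on `X = [-1,1]^ℤ`. -/
def S (x : X) : X := fun t => x (t + 1)

/-- `κ_x`: the conditional measures of `κ` given the invariant sets, that is, the ergodic
components of `κ`. -/
noncomputable def comp (κ : Measure X) [IsProbabilityMeasure κ] (x : X) : Measure X :=
  condExpKernel κ (MeasurableSpace.invariants S) x

/-- The past up to the time `m`: generated by the coordinates `x k`, `k ≤ m`. -/
abbrev past (m : ℤ) : MeasurableSpace X :=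
  ⨆ k : ℤ, ⨆ _ : k ≤ m, MeasurableSpace.comap (fun x : X => x k) inferInstance

/-- The remote past. -/
abbrev remote : MeasurableSpace X := ⨅ m : ℤ, past m

theorem remote_le : remote ≤ (inferInstance : MeasurableSpace X) :=
  iInf_le_of_le 0 (iSup_le fun k => iSup_le fun _ => (measurable_pi_apply k).comap_le)

/-- `P κ n = E(x n | remote past)` -/
noncomputable def P (κ : Measure X) (n : ℤ) : X → ℝ := κ[fun x : X => (x n : ℝ) | remote]

/-- The sigma algebra generated by the functions `P κ k` and `(x k) ^ 2`, `k ≤ m`. -/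
noncomputable abbrev bias (κ : Measure X) (m : ℤ) : MeasurableSpace X :=
  ⨆ k : ℤ, ⨆ _ : k ≤ m, (MeasurableSpace.comap (P κ k) inferInstance ⊔
    MeasurableSpace.comap (fun x : X => (x k : ℝ) ^ 2) inferInstance)

/-- For an invariant measure `ν`, the spectral measures of `P 0` and of the coordinate `y 0` are the
same discrete measure (weights `b j` at the frequencies `± θ j`) plus `v` times, respectively `w`
times, Lebesgue measure. -/
def Dec (κ ν : Measure X) (v w : ℝ) : Prop := ∃ b θ : ℕ → ℝ, (∀ j, 0 ≤ b j) ∧ Summable b ∧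
  ∫ y, P κ 0 y ^ 2 ∂ν = (∑' j, b j) + v ∧ ∫ y, (y 0 : ℝ) ^ 2 ∂ν = (∑' j, b j) + w ∧
  ∀ h : ℕ, 1 ≤ h →
    ∫ y, P κ 0 y * P κ h y ∂ν = ∑' j, b j * Real.cos (2 * Real.pi * θ j * h) ∧
    ∫ y, (y 0 : ℝ) * (y (h : ℤ) : ℝ) ∂ν = ∑' j, b j * Real.cos (2 * Real.pi * θ j * h)

/-- Parts (i) and (ii) of the theorem for the measure `κ`. -/
def Struct (κ : Measure X) [IsProbabilityMeasure κ] (v w : X → ℝ) : Prop :=
  -- (i)
  iCondIndepFun remote remote_le (fun (n : ℤ) (x : X) => x n) κ ∧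
  (∀ n : ℤ, κ[fun x : X => (x n : ℝ) ^ 2 | remote] =ᵐ[κ] fun x => (x n : ℝ) ^ 2) ∧
  (∀ A : Set X, MeasurableSet[remote] A → ∀ m : ℤ,
    ∃ B : Set X, MeasurableSet[bias κ m] B ∧ A =ᵐ[κ] B) ∧
  (∀ A : Set X, MeasurableSet A → S ⁻¹' A = A →
    ∃ B : Set X, MeasurableSet[remote] B ∧ A =ᵐ[κ] B) ∧
  ((∀ (s : Finset ℤ) (n : ℤ) (e : ℤ → ℕ), n ∉ s →
    ∫ x, (x n : ℝ) * ∏ k ∈ s, (x k : ℝ) ^ e k ∂κ = 0) ↔ P κ 0 =ᵐ[κ] 0) ∧
  -- (ii)
  ∀ᵐ x ∂κ, Dec κ (comp κ x) (v x) (w x)

/-- **Structure of the Furstenberg systems of a multiplicative function `u` with values in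
`{-1, 0, 1}`** (`μ`, Liouville's function, ...): the process is the sum of a deterministic process
`P n`, the conditional mean given the remote past, and of a noise in the signs. (i) Given the remote
past the coordinates are independent; up to null sets, the remote past contains the squares of the
coordinates and the invariant sets, and it is generated by the `P n` and the squares `(x n) ^ 2`,
`n ≤ m`, for every `m` (for Liouville's function: by the `P n`); all the correlations vanish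
(Chowla's conjecture for `κ`) if and only if `P 0 = 0`. (ii) On almost every ergodic component the
spectral measures of `P 0` and of the coordinate `y 0` are the same discrete measure plus `v x`, and
`w x`, times Lebesgue measure. (iii) If `u p = - χ p` for all primes `p` outside `E`, `χ` a
Dirichlet character modulo `q`, then the mean of `w` is at least `c > 0`, which depends on `q` and
`E` only; here the sum of `1 / p` over the primes in `E` is finite. This holds (A) for every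
logarithmic limit `κ` and (B) for almost all values `K ω` of every random measure which is a limit
in law of the empirical measures of `u` on the intervals `(N - L N, N]` at a random scale `N`: at
almost all scales (`L N = N`), and on almost all short intervals. -/
theorem result (q : ℕ) [NeZero q] (E : Set ℕ)
    (hE : Summable fun p : {p : ℕ // p.Prime ∧ p ∈ E} => (1 : ℝ) / (p : ℕ)) :
    ∃ c : ℝ, 0 < c ∧ ∀ u : ℕ → I1,
    (∀ n, (u n : ℝ) = -1 ∨ (u n : ℝ) = 0 ∨ (u n : ℝ) = 1) →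
    (∀ m n : ℕ, m.Coprime n → (u (m * n) : ℝ) = u m * u n) →
    -- (A)
    (∀ (κ : Measure X) [IsProbabilityMeasure κ], QuasiGeneric u κ →
      ∃ v w : X → ℝ, Measurable v ∧ Measurable w ∧ (∀ x, 0 ≤ v x ∧ v x ≤ w x ∧ w x ≤ 1) ∧
        Struct κ v w ∧
        ((∃ χ : DirichletCharacter ℂ q, ∀ p : ℕ, p.Prime → p ∉ E → ((u p : ℝ) : ℂ) = -χ p) →
          c ≤ ∫ x, w x ∂κ)) ∧
    -- (B)
    (∀ L : ℕ → ℝ, IsLength L → ∀ (Ω : Type) [MeasurableSpace Ω] (μ : Measure Ω)
      [IsProbabilityMeasure μ] (K : Kernel Ω X) [IsMarkovKernel K], RandomScale L u μ K →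
      ∃ v w : X → ℝ, Measurable v ∧ Measurable w ∧ (∀ x, 0 ≤ v x ∧ v x ≤ w x ∧ w x ≤ 1) ∧
        (∀ᵐ ω ∂μ, Struct (K ω) v w) ∧
        ((∃ χ : DirichletCharacter ℂ q, ∀ p : ℕ, p.Prime → p ∉ E → ((u p : ℝ) : ℂ) = -χ p) →
          c ≤ ∫ ω, ∫ x, w x ∂K ω ∂μ)) := by
  obtain ⟨c, hc, h⟩ := Pool.Agent.H28.SQ.main_any
    (Pool.Agent.H92.WN.pf_GLR Pool.Agent.H83.RC.All.aEBR) Pool.Agent.H6.TP.Es.tQSU q E hE
  refine ⟨c, hc, fun u hT hm => ⟨fun κ _ hκ => (h u hT hm).1 κ ⟨inferInstance, hκ⟩,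
    fun L hL Ω _ μ _ K _ hK => ?_⟩⟩
  have hLen : Pool.Agent.H78.FS.Len L := ⟨fun N hN => (hL.1 N hN).1, fun N hN => (hL.1 N hN).2,
    fun N M h1 h2 => (hL.2.1 N M h1 h2).1, fun N M h1 h2 => by
      have h3 := (hL.2.1 N M h1 h2).2
      rw [div_le_div_iff₀ (hL.1 N h1).1 (hL.1 M (h1.trans h2)).1] at h3
      linarith, hL.2.2⟩
  exact (h u hT hm).2 Ω μ K ⟨inferInstance, Pool.Agent.H78.FS.K_mean hLen hK⟩
    (Pool.Agent.H78.FS.K_inv hLen hK)

end Pool.Agent.Results.MP_c59857_nt.FurstenbergSystems
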