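import Pool.Agent.H28.GN.AllG

/-!
# Local Gowers uniformity of a product of values of `λ` and `μ ^ 2` (`MP_c59857_nt`)

Here `λ(n) = (-1) ^ Ω(n)`, where `Ω` is `ArithmeticFunction.cardFactors`, and `μ` is
`ArithmeticFunction.moebius`.
-/

set_option autoImplicit false

open Finset

namespace Pool.Agent.Results.MP_c59857_nt.LocalGowersUniformity

/-- `f u n = ∏_{i ≤ n} u(λ(i), μ(i)^2)` -/
noncomputable def f (u : ℤ → ℤ → ℂ) (n : ℕ) : ℂ :=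
  ∏ i ∈ Icc 1 n, u ((-1) ^ ArithmeticFunction.cardFactors i) (ArithmeticFunction.moebius i ^ 2)

open Pool.Agent.H28.LF in
theorem result (u : ℤ → ℤ → ℂ) (hu : ∀ a b, ‖u a b‖ = 1) (h1 : u 1 1 ≠ u (-1) 1)
    (J R : ℕ) (b : Fin R → ℕ) (a : Fin J → Fin R → ℕ) (hab : ∀ j, a j ≠ b)
    (ε : ℝ) (hε : 0 < ε) :
    ∃ K₀ : ℕ, 0 < K₀ ∧ ∀ (x y : ℕ) (K : ℕ → ℕ) (v : ℕ → Fin R → ℕ) (g : ℕ → Fin J → ℕ → ℂ)
      (I : ℕ → (Fin R → ℕ) → Finset (ℕ × ℕ)),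
      K₀ ≤ x → K₀ * x ≤ y → (∀ N, K₀ ≤ N → K₀ ≤ K N ∧ K N ≤ N) → (∀ N r, v N r ≤ N) →
      (∀ N j n, ‖g N j n‖ ≤ 1) → (∀ N t, ∀ S ∈ I N t, S.1 + K₀ ≤ S.2 ∧ S.2 ≤ N) →
      (∀ N t, (I N t : Set (ℕ × ℕ)).PairwiseDisjoint (fun S => Ioc S.1 S.2)) →
      ∑ N ∈ Icc x y, (∑ t ∈ Fintype.piFinset (fun r => Ioc (v N r) (v N r + K N)),
        ∑ S ∈ I N t, ‖∑ n ∈ Ioc S.1 S.2,
          f u (n + ∑ r, b r * t r) * ∏ j, g N j (n + ∑ r, a j r * t r)‖) /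
            ((K N : ℝ) ^ R * (N : ℝ) ^ 2) ≤ ε * Real.log ((y : ℝ) / x) :=
  Pool.Agent.H28.GN.handG u (Pool.Agent.H28.GN.AllG.thmG _ (Um_ul2 u hu h1)) J R b a hab ε hε

end Pool.Agent.Results.MP_c59857_nt.LocalGowersUniformity
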