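import Pool.Agent.H24.RC.Wav
import Pool.Agent.H83.RC.All

set_option autoImplicit false

namespace Pool.Agent.Results.MP_c59857_nt.NoLocalRelation

/-- `[Y, Z]` is a logarithmic window: `log (Z / Y) ≥ (log Z) ^ (24/25)`. For example `Y = 1`. -/
def IsWindow (Y Z : ℕ) : Prop :=
  1 ≤ Y ∧ Y ≤ Z ∧ Real.log Z ^ (24 / 25 : ℝ) ≤ Real.log ((Z : ℝ) / Y)

open Finset in
/-- **The Möbius function satisfies no local linear relation, even up to waves.**
Let `f` be a function bounded by `1` with `f 1 = 1` and `f (p n) = - χ(p) f n` for all primes `p`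
which do not divide `n`, where `χ` is a Dirichlet character modulo `q`: for example `μ`,
Liouville's function `λ`, `χ μ`, `χ λ`. There is `c > 0` (which depends on `q` only) such that for
all `H` and `R` the following holds. In the logarithmic mean over the windows of length `L` from
`Y` to `N`, the mean square over the window of
`∑ a(h) f(m + h) - ∑ b(r) e(β(r) m)`, where `0 ≤ h ≤ H` and `1 ≤ r ≤ R`, is more than `c`, if `L` is
large and `N / Y` is at least a fixed power of `L` and `log (N / Y) ≥ (log N) ^ (24/25)`. Here the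
coefficients `a` with `∑ |a(h)|² ≥ 1`, the coefficients `b` and the frequencies `β` are chosen after
the window. For `b = 0` this says that the mean of the smallest eigenvalue of the matrix of the
local correlations `(1/L) ∑ f(m + h) conj f(m + h')`, `0 ≤ h, h' ≤ H`, is more than `c`, for every
size. -/
theorem result (q : ℕ) [NeZero q] : ∃ c : ℝ, 0 < c ∧ ∃ K : ℕ, ∀ H R : ℕ, ∃ L₀ : ℕ,
    ∀ L Y N : ℕ, L₀ ≤ L → IsWindow Y N → K * Real.log L ≤ Real.log ((N : ℝ) / Y) →
      ∀ (χ : DirichletCharacter ℂ q) (f : ℕ → ℂ), (∀ n, ‖f n‖ ≤ 1) → f 1 = 1 →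
      (∀ p n : ℕ, p.Prime → ¬ p ∣ n → f (p * n) = -χ p * f n) →
      ∀ a : ℕ → ℕ → ℂ, (∀ n, 1 ≤ ∑ h ∈ range (H + 1), ‖a n h‖ ^ 2) →
      ∀ (b : ℕ → ℕ → ℂ) (β : ℕ → ℕ → ℝ),
        c * Real.log ((N : ℝ) / Y) < ∑ n ∈ Icc Y N, 1 / (n : ℝ) * ((∑ m ∈ Icc 1 L,
          ‖∑ h ∈ range (H + 1), a n h * f (n + m + h) - ∑ r ∈ range R,
            b n r * Complex.exp (2 * Real.pi * Complex.I * (β n r * m))‖ ^ 2) / L) := by
  obtain ⟨c, hc, K, h⟩ := Pool.Agent.H24.RC.rzc_plain Pool.Agent.H83.RC.All.aRZC q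
  refine ⟨c, hc, K, fun H R => ?_⟩
  obtain ⟨L₀, h⟩ := h H R
  exact ⟨L₀, fun L Y N hL hW hK χ f hf h1 hm a ha b β =>
    h L Y N hL hW.1 hW.2.1 hK hW.2.2 χ f ⟨hf, h1, hm⟩ a ha b β⟩

end Pool.Agent.Results.MP_c59857_nt.NoLocalRelation
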