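import Pool.Agent.H28.GS.All

/-!
# A structure theorem for the correlations of the Möbius function of every order

`f m` is the product of the values of the Möbius function at `m + β i` to the powers `δ i`
(the Möbius function is `0` at the non positive integers), for any number `r` of factors.  For
almost all scales `N` (in the sense of logarithmic measure in every long interval `[x, y]`) there
are `q, H ≤ K` and a function `φ` of the residue class modulo `q` and of the block of length
`N / H`, with values in `[-1, 1]`, such that `f - φ` along a linear form `a₀ n + b₀ . t` does not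
correlate with any bounded functions along linear forms `a j n + b j . t` that are not proportional
to it, for almost all `t` in `[-N, N] ^ R`.  The function `φ` is `0` if exactly one or two of the
exponents are odd, and also, for every number of odd exponents, if the corresponding product of the
Liouville function has no large sum over an arithmetic progression of small modulus.
-/

set_option autoImplicit false

namespace Pool.Agent.Results.MP_c59857_nt.StructureTheorem

open Classical in
/-- The structure theorem: every correlation is a function of the residue class and of the block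
plus a function which is Gowers uniform of every order, at almost all scales. -/
theorem result (r : ℕ) (β : Fin r → ℤ) (δ : Fin r → ℕ) (hδ : ∀ i, 1 ≤ δ i) (R J : ℕ)
    (a₀ : ℤ) (b₀ : Fin R → ℤ) (a : Fin J → ℤ) (b : Fin J → Fin R → ℤ) (ha : a₀ ≠ 0)
    (hb : ∀ j, ∃ l, a₀ * b j l ≠ a j * b₀ l) (η ρ : ℝ) (hη : 0 < η) (hρ : 0 < ρ) :
    ∃ K : ℕ, ∀ x y : ℕ, 0 < x → K * x ≤ y →
      ∑ N ∈ (Finset.Icc x y).filter (fun N : ℕ =>
        ¬ ∃ (q H : ℕ) (φ : ℤ → ℤ → ℝ), 1 ≤ q ∧ q ≤ K ∧ 1 ≤ H ∧ H ≤ K ∧ (∀ s j, |φ s j| ≤ 1) ∧
          ((Function.Injective β ∧ ((Finset.univ.filter (fun i => Odd (δ i))).card = 1 ∨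
              (Finset.univ.filter (fun i => Odd (δ i))).card = 2)) ∨
            (∀ d c M : ℕ, 1 ≤ d → d ≤ K → M ≤ K * N →
              |∑ n ∈ (Finset.Icc 1 M).filter (fun n : ℕ => n ≡ c [MOD d]),
                ∏ i ∈ Finset.univ.filter (fun i => Odd (δ i)),
                  (-1 : ℝ) ^ (ArithmeticFunction.cardFactors ((n : ℤ) + β i).toNat)| ≤
                (N : ℝ) / K) → ∀ s j, φ s j = 0) ∧
          ∀ F : Fin J → ℤ → ℂ, (∀ j m, ‖F j m‖ ≤ 1) →
            (((Fintype.piFinset (fun _ : Fin R => Finset.Icc (-(N : ℤ)) N)).filter (fun t =>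
              η * N < ‖∑ n ∈ Finset.Icc (1 : ℤ) N,
                ((∏ i, ((ArithmeticFunction.moebius
                    ((a₀ * n + ∑ l, b₀ l * t l + β i).toNat) : ℤ) : ℝ) ^ δ i -
                  φ ((a₀ * n + ∑ l, b₀ l * t l) % q) (H * (a₀ * n + ∑ l, b₀ l * t l) / N) :
                    ℝ) : ℂ) * ∏ j, F j (a j * n + ∑ l, b j l * t l)‖)).card : ℝ) ≤
              η * (N : ℝ) ^ R),
        (1 / (N : ℝ)) ≤ ρ * Real.log ((y : ℝ) / x) := by
  obtain ⟨K, hK0, hK⟩ := Pool.Agent.H28.GS.All.s_FIN r β δ R J a₀ b₀ a b η ρ hδ ha hb hη hρ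
  refine ⟨K, fun x y hx hy => le_trans (le_of_eq ?_) (hK x y hx hy)⟩
  refine Finset.sum_congr ?_ fun _ _ => rfl
  refine Finset.filter_congr fun N _ => ?_
  refine not_congr ?_
  refine exists_congr fun q => exists_congr fun k => exists_congr fun φ => ?_
  refine and_congr Iff.rfl (and_congr Iff.rfl (and_congr Iff.rfl (and_congr Iff.rfl
    (and_congr Iff.rfl (and_congr ?_ Iff.rfl)))))
  refine imp_congr (or_congr ⟨fun h => ⟨hδ, h⟩, fun h => h.2⟩ Iff.rfl) Iff.rfl

end Pool.Agent.Results.MP_c59857_nt.StructureTheorem
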